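import Pool.Agent.helper37.L5.SpecE
import Pool.Agent.helper23.L5.FTG5
import Pool.Agent.helper18.FI4E.TGP

/-!
# Row l5:TGP5 (MP_baa4d7_al): toggle on the chains of subgroups fixed by an automorphism
-/

set_option autoImplicit false

namespace Pool.Agent.L5

open Pool.Agent.helper58.DC Pool.Agent.DI Pool.Agent.GR Pool.Agent.OB Pool.Agent.DR Pool.Agent.FI Pool.Agent.FI3 Pool.Agent.FI4 Pool.Agent.FI4I Pool.Agent.FI4E Pool.Agent.LE

theorem TGP5_main (Γ : Type) [Group Γ] [Finite Γ] (p : ℕ) (L P M Y : Subgroup Γ) (β : MulAut Γ)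
    (g : Subgroup Γ → ℂ) (hLp : IsPGroup p L) (hYL : Y ≤ L) (hM : M ⊓ nz P ≤ nz Y) (hYP : ¬ Y ≤ P) (hβY : am β Y = Y) :
    ∑ᶠ C ∈ {C : Finset (Subgroup Γ) | PCh p L P C ∧ FxC β C}, (-1 : ℂ) ^ (C.card + 1) * g (M ⊓ nrm C) = 0 := by
  classical
  refine FTG5_tog (Subgroup Γ) {C | PCh p L P C ∧ FxC β C} (FTG5_t Y) (fun C => g (M ⊓ nrm C)) ?_
  intro C hC' D hD
  have hC : PCh p L P C := hC'.1
  have hCβ : FxC β C := hC'.2
  -- the largest term
  obtain ⟨R, hR⟩ : ∃ R, FTG5_top Y C R := by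
    have hne : (C.filter fun Q => ¬ Y ≤ Q).Nonempty := ⟨P, Finset.mem_filter.2 ⟨hC.mem, hYP⟩⟩
    obtain ⟨R, hR⟩ := Finset.exists_maximal hne
    have hR1 := Finset.mem_filter.1 hR.prop
    refine ⟨R, hR1.1, hR1.2, fun Q hQ hQY => ?_⟩
    rcases hC.chain.total hQ hR1.1 with h | h
    · exact h
    · exact hR.le_of_ge (Finset.mem_filter.2 ⟨hQ, hQY⟩) h
  have hPR : P ≤ R := hC.bot R hR.1
  have ht := FTG5_t_eq hR
  set T := R ⊔ Y with hT
  have hTβ : am β T = T := by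
    have h1 : am β R = R := hCβ R hR.1
    unfold am at h1 hβY ⊢
    rw [hT, Subgroup.map_sup, h1, hβY]
  have hYT : Y ≤ T := le_sup_right
  have hRT : R ≤ T := le_sup_left
  have hTR : R ≠ T := fun h => hR.2.1 (h ▸ hYT)
  have hTP : P ≠ T := fun h => hYP (h ▸ hYT)
  have hTL : T ≤ L := sup_le (hC.le R hR.1) hYL
  have hTp : IsPGroup p T := hLp.to_le hTL
  have hcmp : ∀ Q ∈ C, Q ≤ T ∨ T ≤ Q := by
    intro Q hQ
    by_cases h : Y ≤ Q
    · right
      rcases hC.chain.total hQ hR.1 with h1 | h1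
      · exact absurd (h.trans h1) hR.2.1
      · exact sup_le h1 h
    · left
      exact (hR.2.2 Q hQ h).trans hRT
  have hmem : ∀ Q, Q ≠ T → (Q ∈ D ↔ Q ∈ C) := by
    intro Q hQ
    rcases hD with h | h
    · rw [h, Finset.mem_insert, ht]
      exact ⟨fun h => h.resolve_left hQ, Or.inr⟩
    · rw [h, Finset.mem_erase, ht]
      exact ⟨fun h => h.2, fun h => ⟨hQ, h⟩⟩
  have hRD : FTG5_top Y D R := by
    refine ⟨(hmem R hTR).2 hR.1, hR.2.1, fun Q hQ hQY => hR.2.2 Q ((hmem Q ?_).1 hQ) hQY⟩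
    rintro rfl
    exact hQY hYT
  have hDch : PCh p L P D := by
    refine ⟨?_, (hmem P hTP).2 hC.mem, ?_, ?_, ?_⟩
    · intro Q hQ Q' hQ' hne
      have hQ : Q ∈ D := hQ
      have hQ' : Q' ∈ D := hQ'
      by_cases h : Q = T
      · subst h
        exact (hcmp Q' ((hmem Q' (Ne.symm hne)).1 hQ')).symm
      · by_cases h' : Q' = T
        · subst h'
          exact hcmp Q ((hmem Q h).1 hQ)
        · exact hC.chain.total ((hmem Q h).1 hQ) ((hmem Q' h').1 hQ')
    · intro Q hQ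
      by_cases h : Q = T
      · subst h
        exact hPR.trans hRT
      · exact hC.bot Q ((hmem Q h).1 hQ)
    · intro Q hQ
      by_cases h : Q = T
      · subst h
        exact hTL
      · exact hC.le Q ((hmem Q h).1 hQ)
    · intro Q hQ
      by_cases h : Q = T
      · subst h
        exact hTp
      · exact hC.pg Q ((hmem Q h).1 hQ)
  have hDβ : FxC β D := by
    intro Q hQ
    by_cases h : Q = T
    · rw [h]
      exact hTβ
    · exact hCβ Q ((hmem Q h).1 hQ)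
  refine ⟨⟨hDch, hDβ⟩, (FTG5_t_eq hRD).trans ht.symm, ?_⟩
  -- normalisers
  have key : ∀ E : Finset (Subgroup Γ), P ∈ E → R ∈ E → ∀ x ∈ M,
      (∀ Q ∈ E, Q ≠ T → x ∈ nz Q) → x ∈ nz T := by
    intro E hP hR x hx h
    exact FTG5_nz_sup (h R hR hTR) (hM ⟨hx, h P hP hTP⟩)
  have heq : M ⊓ nrm D = M ⊓ nrm C := by
    ext x
    rw [Subgroup.mem_inf, Subgroup.mem_inf, FTG5_nrm, FTG5_nrm]
    refine and_congr_right fun hx => ⟨fun h Q hQ => ?_, fun h Q hQ => ?_⟩
    · by_cases h' : Q = T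
      · subst h'
        exact key D ((hmem P hTP).2 hC.mem) hRD.1 x hx fun Q hQ _ => h Q hQ
      · exact h Q ((hmem Q h').2 hQ)
    · by_cases h' : Q = T
      · subst h'
        exact key C hC.mem hR.1 x hx fun Q hQ _ => h Q hQ
      · exact h Q ((hmem Q h').1 hQ)
  show g (M ⊓ nrm D) = g (M ⊓ nrm C)
  rw [heq]

open Classical in
/-- **Row TGP5** -/
theorem TGP5 : TGP5_stmt := by
  intro G _ _ p _ D R E β hp hcomm hRD hED hER hR hβE hβR f
  have h0 := TGP5_main G p D R (nz E) E β f hp hED inf_le_left hER hβE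
  have hfin : ∀ S : Set (Finset (Subgroup G)), S.Finite := fun S => Set.toFinite S
  have hone : PCh p D R ({R} : Finset (Subgroup G)) := by
    refine ⟨?_, ?_, ?_, ?_, ?_⟩
    · rw [Finset.coe_singleton]
      exact Set.pairwise_singleton _ _
    · simp
    · intro Q hQ
      rw [Finset.mem_singleton] at hQ
      rw [hQ]
    · intro Q hQ
      rw [Finset.mem_singleton] at hQ
      rw [hQ]
      exact hRD
    · intro Q hQ
      rw [Finset.mem_singleton] at hQ
      rw [hQ]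
      exact hp.to_le hRD
  have honeβ : FxC β ({R} : Finset (Subgroup G)) := by
    intro Q hQ
    rw [Finset.mem_singleton] at hQ
    rw [hQ]
    exact hβR
  have hset : {C : Finset (Subgroup G) | PCh p D R C ∧ FxC β C} = insert ({R} : Finset (Subgroup G))
      {C : Finset (Subgroup G) | (NCh p ⊤ R C ∧ C ≠ {R}) ∧ FxC β C ∧ ∀ Q ∈ C, Q ≤ D} := by
    ext C
    simp only [Set.mem_insert_iff, Set.mem_ofPred_eq]
    constructor
    · rintro ⟨h1, h2⟩
      by_cases h3 : C = {R}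
      · exact Or.inl h3
      · have h4 := (TGP_nch hcomm C).2 h1
        exact Or.inr ⟨⟨h4.1, h3⟩, h2, h4.2⟩
    · rintro (rfl | ⟨⟨h1, -⟩, h2, h3⟩)
      · exact ⟨hone, honeβ⟩
      · exact ⟨(TGP_nch hcomm C).1 ⟨h1, h3⟩, h2⟩
  have hnot : ({R} : Finset (Subgroup G)) ∉
      {C : Finset (Subgroup G) | (NCh p ⊤ R C ∧ C ≠ {R}) ∧ FxC β C ∧ ∀ Q ∈ C, Q ≤ D} := fun h => h.1.2 rfl
  rw [hset, finsum_mem_insert _ hnot (hfin _)] at h0
  have hT2 : nz E ⊓ nrm ({R} : Finset (Subgroup G)) = nz E := by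
    apply inf_eq_left.2
    intro x _
    rw [FTG5_nrm]
    intro Q hQ
    rw [Finset.mem_singleton] at hQ
    rw [hQ, hR]
    exact Subgroup.mem_top x
  rw [Finset.card_singleton, hT2] at h0
  have h1 : ((-1 : ℂ)) ^ (1 + 1) * f (nz E) = f (nz E) := by ring
  rw [h1] at h0
  have h2 := eq_neg_of_add_eq_zero_right h0
  rw [← h2]
  refine finsum_mem_congr rfl fun C _ => ?_
  rw [inf_comm]

end Pool.Agent.L5
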